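import Pool.Agent.J4H78.HG.Stm
import Pool.Agent.J4H57.GP.Gap

/-!
# Project HG (MP_d0fd9b_nt), GAH: the spectral gap from the count of large character sums
-/

set_option autoImplicit false

open NumberField Complex Filter Topology MeasureTheory
open Pool.Agent.Y773 (VM cc)

namespace Pool.Agent.J4H57.HG

open Pool.Agent.J4H78.GP (QD gg PS fib_finite)
open Pool.Agent.J4H78.HG
open Pool.Agent.J4H57.GP (fib_eq_sum num)

variable {K : Type} [Field K] [NumberField K]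

theorem SmI_finite (P : Set ℕ) (K : Type) [Field K] [NumberField K] (y : ℝ) : (SmI P K y).Finite := by
  have h1 : (SmI P K y) ⊆ {𝔞 : Ideal (𝓞 K) | Ideal.absNorm 𝔞 ≤ ⌊y⌋₊} := by
    intro 𝔮 h
    exact Nat.le_floor h.2.2
  exact Set.Finite.subset (Ideal.finite_setOfPred_absNorm_le ⌊y⌋₊) h1

open Classical in
/-- the sum over the ideals in `SmI` -/
theorem sum_SmI (ψ : Ideal (𝓞 K) →*₀ ℂ) (P : Set ℕ) {y : ℝ} (hy : 0 ≤ y) :
    ∑ᶠ 𝔮 ∈ SmI P K y, ψ 𝔮 = ∑ q ∈ PS P ⌊y⌋₊, cc ψ q := by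
  rw [finsum_mem_eq_finite_toFinset_sum _ (SmI_finite P K y)]
  have h1 : ∀ q ∈ PS P ⌊y⌋₊, cc ψ q =
      ∑ 𝔮 ∈ (SmI_finite P K y).toFinset.filter (fun 𝔮 : Ideal (𝓞 K) => Ideal.absNorm 𝔮 = q), ψ 𝔮 := by
    intro q hq
    have hq' : q ∈ Finset.Icc 1 ⌊y⌋₊ ∧ q.Prime ∧ q ∈ P := by
      have := hq
      unfold PS at this
      rwa [Finset.mem_filter] at this
    rw [fib_eq_sum ψ hq'.2.1]
    symm
    apply Finset.sum_congr _ fun _ _ => rfl
    ext 𝔮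
    rw [Finset.mem_filter, Set.Finite.mem_toFinset, Set.Finite.mem_toFinset]
    constructor
    · intro h
      exact h.2
    · intro h
      have h2 : Ideal.absNorm 𝔮 = q := h
      refine ⟨⟨?_, ?_, ?_⟩, h2⟩
      · rw [h2]
        exact hq'.2.1
      · rw [h2]
        exact hq'.2.2
      · rw [h2]
        exact (Nat.le_floor_iff hy).mp (Finset.mem_Icc.mp hq'.1).2
  rw [Finset.sum_congr rfl h1, Finset.sum_fiberwise_of_maps_to]
  intro 𝔮 h
  rw [Set.Finite.mem_toFinset] at h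
  unfold PS
  rw [Finset.mem_filter, Finset.mem_Icc]
  exact ⟨⟨h.1.one_lt.le, Nat.le_floor h.2.2⟩, h.1, h.2.1⟩

theorem norm_le_one {ψ : Ideal (𝓞 K) →*₀ ℂ} (hψ : ∀ 𝔞 : Ideal (𝓞 K), 𝔞 ≠ ⊥ → ‖ψ 𝔞‖ = 1)
    (𝔞 : Ideal (𝓞 K)) : ‖ψ 𝔞‖ ≤ 1 := by
  by_cases h : 𝔞 = ⊥
  · have h0 : ψ ⊥ = 0 := map_zero _
    rw [h, h0, norm_zero]
    exact zero_le_one
  · exact (hψ 𝔞 h).le

theorem gg_diff (hK : Module.finrank ℚ K = 2) {ψ : Ideal (𝓞 K) →*₀ ℂ}
    (hψ : ∀ 𝔞 : Ideal (𝓞 K), 𝔞 ≠ ⊥ → ‖ψ 𝔞‖ = 1) (P : Set ℕ) {p : ℕ}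
    (hp : p.Prime) {m : ℕ} (hm : m < p) :
    ‖∑ q ∈ PS P m, cc ψ q‖ ≤ ‖∑ q ∈ PS P m, gg p ψ q‖ + 2 := by
  classical
  have h1 : ∀ q ∈ PS P m, q ≠ 2 → gg p ψ q = cc ψ q := by
    intro q hq h2
    unfold PS at hq
    rw [Finset.mem_filter, Finset.mem_Icc] at hq
    unfold gg
    rw [if_pos]
    rw [Nat.coprime_mul_iff_right]
    constructor
    · exact (Nat.coprime_primes hq.2.1 Nat.prime_two).mpr h2
    · exact (Nat.coprime_primes hq.2.1 hp).mpr (by omega)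
  have h2 : ‖∑ q ∈ PS P m, (cc ψ q - gg p ψ q)‖ ≤ 2 := by
    by_cases h3 : 2 ∈ PS P m
    · rw [Finset.sum_eq_single_of_mem 2 h3 (fun q hq h4 => by rw [h1 q hq h4, sub_self])]
      have h5 : gg p ψ 2 = 0 := by
        unfold gg
        rw [if_neg]
        rw [Nat.coprime_mul_iff_right]
        rintro ⟨h, -⟩
        norm_num at h
      rw [h5, sub_zero]
      have h6 := Pool.Agent.Y772.DK.norm_cc_le ψ (norm_le_one hψ) 2
      rw [hK] at h6
      exact_mod_cast h6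
    · rw [Finset.sum_eq_zero, norm_zero]
      · norm_num
      · intro q hq
        rw [h1 q hq (fun h => h3 (h ▸ hq)), sub_self]
  rw [Finset.sum_sub_distrib] at h2
  have h3 := norm_sub_norm_le (∑ q ∈ PS P m, cc ψ q) (∑ q ∈ PS P m, gg p ψ q)
  linarith

/-- **HG-GAH** -/
theorem t_GAH (hC : S_CNH) (hODH : S_ODH) (hNRM : S_NRM) : S_GAH := by
  intro δ B₀ hδ hB₀
  obtain ⟨A, η, c, C, hA, hη, hη1, hc, hc1, hC0, h⟩ := hC δ B₀ hδ hB₀
  obtain ⟨p₀, hp₀⟩ : ∃ p₀ : ℕ, ∀ p : ℕ, p₀ ≤ p → 3 ^ (2 / η) + 2 ≤ Real.log p :=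
    Filter.eventually_atTop.mp ((Real.tendsto_log_atTop.comp
      tendsto_natCast_atTop_atTop).eventually_ge_atTop (3 ^ (2 / η) + 2))
  refine ⟨A + 1, η / 2, c, p₀ + C, by linarith, by linarith, by linarith, hc, by positivity, ?_⟩
  intro P x hx
  classical
  set S : Set ℕ := {p : ℕ | p.Prime ∧ p ≤ x ∧ ¬ GH B₀ P (A + 1) (η / 2) c p} with hS
  have hSfin : S.Finite := (Set.finite_Iic x).subset fun p hp => hp.2.1
  have key : ∀ p ∈ S, p₀ ≤ p → BadH B₀ P A η c p := by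
    intro p hp hp0
    have hl := hp₀ p hp0
    have hp1 := hp.1
    have hG := hp.2.2
    unfold GH at hG
    push Not at hG
    obtain ⟨K, iF, iN, hK, μ, hμ, ψ, hψ, hn, y, hy1, hy2, hy3⟩ := hG
    have h3 : (1 : ℝ) ≤ 3 ^ (2 / η) := Real.one_le_rpow (by norm_num) (by positivity)
    have hl1 : 1 ≤ Real.log p := by linarith
    have hl0 : 0 < Real.log p := by linarith
    have hly : Real.log p ≤ y := by
      calc Real.log p = (Real.log p) ^ (1 : ℝ) := (Real.rpow_one _).symm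
        _ ≤ (Real.log p) ^ (A + 1) := Real.rpow_le_rpow_of_exponent_le hl1 (by linarith)
        _ ≤ y := hy1
    have hy0 : 0 < y := by linarith
    have hfl : (⌊y⌋₊ : ℝ) ≤ y := Nat.floor_le hy0.le
    have hpr : (1 : ℝ) < p := by exact_mod_cast hp1.one_lt
    have hlt : ⌊y⌋₊ < p := by
      have h4 : (p : ℝ) ^ c < p := by
        calc (p : ℝ) ^ c < (p : ℝ) ^ (1 : ℝ) := Real.rpow_lt_rpow_of_exponent_lt hpr hc1
          _ = p := Real.rpow_one _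
      have h5 : (⌊y⌋₊ : ℝ) < p := by linarith
      exact_mod_cast h5
    refine ⟨⌊y⌋₊, ?_, by linarith, K, iF, iN, hK, μ, ψ, hψ, hμ,
      hODH p K hp1 hK μ ψ hψ hn, ?_⟩
    · have h4 : y < ⌊y⌋₊ + 1 := Nat.lt_floor_add_one y
      have h5 : (Real.log p) ^ (A + 1) = (Real.log p) ^ A * Real.log p := by
        rw [Real.rpow_add hl0, Real.rpow_one]
      have h6 : 1 ≤ (Real.log p) ^ A := Real.one_le_rpow hl1 (by linarith)
      rw [h5] at hy1
      nlinarith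
    · have h4 := num hη hη1 (y := y) (by linarith)
      rw [sum_SmI ψ P hy0.le] at hy3
      have h5 := gg_diff hK.deg (hNRM K μ ψ hψ) P hp1 hlt
      linarith
  have h1 : S ⊆ (Set.Iio p₀) ∪ {p ∈ S | BadH B₀ P A η c p} := by
    intro p hp
    by_cases h2 : p₀ ≤ p
    · exact Or.inr ⟨hp, key p hp h2⟩
    · exact Or.inl (not_le.mp h2)
  have hfin2 : {p ∈ S | BadH B₀ P A η c p}.Finite := hSfin.subset fun p hp => hp.1
  have h2 : S.ncard ≤ p₀ + hfin2.toFinset.card := by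
    calc S.ncard ≤ ((Set.Iio p₀) ∪ {p ∈ S | BadH B₀ P A η c p}).ncard :=
          Set.ncard_le_ncard h1 ((Set.finite_Iio p₀).union hfin2)
      _ ≤ (Set.Iio p₀).ncard + {p ∈ S | BadH B₀ P A η c p}.ncard := Set.ncard_union_le _ _
      _ = p₀ + hfin2.toFinset.card := by
          rw [Set.ncard_eq_toFinset_card _ hfin2]
          congr 1
          rw [← Nat.card_coe_set_eq]
          simp
  have h3 := h P x hx hfin2.toFinset (by
    intro p hp
    rw [Set.Finite.mem_toFinset] at hp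
    exact ⟨hp.1.1, hp.1.2.1, hp.2⟩)
  have hx1 : 1 ≤ (x : ℝ) ^ δ := Real.one_le_rpow (by exact_mod_cast hx) hδ.le
  calc (S.ncard : ℝ) ≤ ((p₀ + hfin2.toFinset.card : ℕ) : ℝ) := by exact_mod_cast h2
    _ = p₀ + (hfin2.toFinset.card : ℝ) := by push_cast; rfl
    _ ≤ p₀ * (x : ℝ) ^ δ + C * (x : ℝ) ^ δ := by
        have : (p₀ : ℝ) ≤ p₀ * (x : ℝ) ^ δ := le_mul_of_one_le_right (Nat.cast_nonneg _) hx1
        linarith
    _ = _ := by ring

end Pool.Agent.J4H57.HG
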