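import Pool.Agent.J4H78.HG.Stm
import Pool.Agent.J4H57.GP.Res

/-!
# Project HG (MP_d0fd9b_nt), REH: sums over the ideals prime to a number
-/

set_option autoImplicit false

open NumberField Complex Filter Topology MeasureTheory

namespace Pool.Agent.J4H57.HG

open Pool.Agent.J4H78.GP (res)
open Pool.Agent.J4H78.HG
open Pool.Agent.J4H57.GP (fQ fQ_mul absNorm_pos' norm_nat two_le_norm coprime_of card_Ov)

variable {L : Type} [Field L] [NumberField L]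

theorem sum_V (hV : S_VPR) (g : Ideal (𝓞 L) → ℂ) {X : ℝ} (hX : 0 < X) :
    Summable fun 𝔞 : Ideal (𝓞 L) => g 𝔞 * ((V ((Ideal.absNorm 𝔞 : ℝ) / X) : ℝ) : ℂ) := by
  apply summable_of_finite_support
  refine Set.Finite.subset (Ideal.finite_setOfPred_absNorm_le ⌊Real.exp 4 * X⌋₊) ?_
  intro 𝔞 h
  rw [Function.mem_support] at h
  apply Nat.le_floor
  by_contra hcon
  rw [not_le] at hcon
  apply h
  rw [hV.2.2.2.1 _ ((le_div_iff₀ hX).mpr hcon.le)]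
  simp

/-- the sum over the ideals prime to `Q` -/
noncomputable def TV (η : Ideal (𝓞 L) →*₀ ℂ) (Q : Finset (Ideal (𝓞 L))) (X : ℝ) : ℂ :=
  ∑' 𝔞 : Ideal (𝓞 L), fQ η Q 𝔞 * ((V ((Ideal.absNorm 𝔞 : ℝ) / X) : ℝ) : ℂ)

open Classical in
theorem TV_insert (hV : S_VPR) {η : Ideal (𝓞 L) →*₀ ℂ}
    {Q : Finset (Ideal (𝓞 L))} {𝔮 : Ideal (𝓞 L)}
    (hq : Prime 𝔮) (hQ : ∀ 𝔭 ∈ Q, Prime 𝔭) (hn : 𝔮 ∉ Q) {X : ℝ} (hX : 0 < X) :
    TV η (insert 𝔮 Q) X = TV η Q X - η 𝔮 * TV η Q (X / Ideal.absNorm 𝔮) := by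
  have hN := absNorm_pos' hq.ne_zero
  have h1 : ∀ 𝔞, fQ η (insert 𝔮 Q) 𝔞 = fQ η Q 𝔞 - (if 𝔮 ∣ 𝔞 then fQ η Q 𝔞 else 0) := by
    intro 𝔞
    by_cases h2 : 𝔮 ∣ 𝔞
    · rw [if_pos h2, sub_self]
      unfold fQ
      rw [if_neg]
      intro h
      exact h 𝔮 (Finset.mem_insert_self _ _) h2
    · rw [if_neg h2, sub_zero]
      unfold fQ
      have h3 : (∀ 𝔭 ∈ insert 𝔮 Q, ¬ 𝔭 ∣ 𝔞) ↔ ∀ 𝔭 ∈ Q, ¬ 𝔭 ∣ 𝔞 := by
        rw [Finset.forall_mem_insert]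
        exact ⟨fun h => h.2, fun h => ⟨h2, h⟩⟩
      by_cases h4 : ∀ 𝔭 ∈ Q, ¬ 𝔭 ∣ 𝔞
      · rw [if_pos h4, if_pos (h3.mpr h4)]
      · rw [if_neg h4, if_neg (fun h => h4 (h3.mp h))]
  have h3 := sum_V hV (fQ η Q) hX
  have h4 := sum_V hV (fun 𝔞 => if 𝔮 ∣ 𝔞 then fQ η Q 𝔞 else 0) hX
  unfold TV
  simp_rw [h1, sub_mul]
  rw [h3.tsum_sub h4]
  congr 1
  have hi : Function.Injective fun 𝔠 : Ideal (𝓞 L) => 𝔮 * 𝔠 :=
    fun a b h => mul_left_cancel₀ hq.ne_zero h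
  rw [← hi.tsum_eq, ← tsum_mul_left]
  · refine tsum_congr fun 𝔠 => ?_
    rw [if_pos (dvd_mul_right 𝔮 𝔠), fQ_mul hq hQ hn, map_mul, Nat.cast_mul]
    have h5 : (Ideal.absNorm 𝔮 : ℝ) * Ideal.absNorm 𝔠 / X =
        Ideal.absNorm 𝔠 / (X / Ideal.absNorm 𝔮) := by
      field_simp
    rw [h5]
    ring
  · intro 𝔞 h𝔞
    rw [Function.mem_support] at h𝔞
    by_cases h5 : 𝔮 ∣ 𝔞
    · obtain ⟨𝔠, h6⟩ := h5
      exact ⟨𝔠, h6.symm⟩
    · exfalso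
      apply h𝔞
      rw [if_neg h5, zero_mul]

theorem TV_le (hV : S_VPR) {η : Ideal (𝓞 L) →*₀ ℂ} (hη : ∀ 𝔞 : Ideal (𝓞 L), 𝔞 ≠ ⊥ → ‖η 𝔞‖ = 1)
    {D : ℝ} (hT : ∀ X : ℝ, 0 < X →
      ‖∑' 𝔞 : Ideal (𝓞 L), η 𝔞 * ((V ((Ideal.absNorm 𝔞 : ℝ) / X) : ℝ) : ℂ)‖ ≤ D * X ^ (3 / 4 : ℝ))
    (Q : Finset (Ideal (𝓞 L))) (hQ : ∀ 𝔭 ∈ Q, Prime 𝔭) : ∀ X : ℝ, 0 < X →
      ‖TV η Q X‖ ≤ D * 2 ^ Q.card * X ^ (3 / 4 : ℝ) := by
  classical
  have hD : 0 ≤ D := by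
    have := (norm_nonneg _).trans (hT 1 one_pos)
    simpa using this
  induction Q using Finset.induction_on with
  | empty =>
    intro X hX
    rw [Finset.card_empty, pow_zero, mul_one]
    refine le_trans (le_of_eq ?_) (hT X hX)
    have h1 : ∀ 𝔞, fQ η ∅ 𝔞 = η 𝔞 := by
      intro 𝔞
      unfold fQ
      exact if_pos (by simp)
    unfold TV
    simp_rw [h1]
  | insert 𝔮 Q hn ih =>
    intro X hX
    have hq : Prime 𝔮 := hQ 𝔮 (Finset.mem_insert_self _ _)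
    have hQ' : ∀ 𝔭 ∈ Q, Prime 𝔭 := fun 𝔭 h => hQ 𝔭 (Finset.mem_insert_of_mem h)
    have hN := absNorm_pos' hq.ne_zero
    rw [TV_insert hV hq hQ' hn hX, Finset.card_insert_of_notMem hn]
    have h1 := ih hQ' X hX
    have h2 := ih hQ' (X / Ideal.absNorm 𝔮) (by positivity)
    have hN1 : (1 : ℝ) ≤ Ideal.absNorm 𝔮 := by
      have := two_le_norm hq
      exact_mod_cast (by omega : 1 ≤ Ideal.absNorm 𝔮)
    have h3 : (X / (Ideal.absNorm 𝔮 : ℝ)) ^ (3 / 4 : ℝ) ≤ X ^ (3 / 4 : ℝ) :=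
      Real.rpow_le_rpow (by positivity) (div_le_self hX.le hN1) (by norm_num)
    have h4 : D * 2 ^ Q.card * (X / (Ideal.absNorm 𝔮 : ℝ)) ^ (3 / 4 : ℝ) ≤
        D * 2 ^ Q.card * X ^ (3 / 4 : ℝ) := mul_le_mul_of_nonneg_left h3 (by positivity)
    calc ‖TV η Q X - η 𝔮 * TV η Q (X / Ideal.absNorm 𝔮)‖
        ≤ ‖TV η Q X‖ + ‖η 𝔮 * TV η Q (X / Ideal.absNorm 𝔮)‖ := norm_sub_le _ _
      _ = ‖TV η Q X‖ + ‖TV η Q (X / Ideal.absNorm 𝔮)‖ := by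
          rw [norm_mul, hη 𝔮 hq.ne_zero, one_mul]
      _ ≤ D * 2 ^ Q.card * X ^ (3 / 4 : ℝ) + D * 2 ^ Q.card * X ^ (3 / 4 : ℝ) :=
          add_le_add h1 (h2.trans h4)
      _ = _ := by ring

theorem res_apply' (M : ℕ) (η : Ideal (𝓞 L) →*₀ ℂ) (𝔞 : Ideal (𝓞 L)) :
    res M η 𝔞 = if (Ideal.absNorm 𝔞).Coprime M then η 𝔞 else 0 := rfl

/-- **HG-REH** -/
theorem t_REH (hT : S_TH) (hNRM : S_NRM) (hV : S_VPR) : S_REH := by
  classical
  obtain ⟨C, hC, hT⟩ := hT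
  refine ⟨C * 2 ^ 12, by positivity, ?_⟩
  intro L _ _ _ hL μ η hη hn M hM hM3 X hX
  have hMne : M ≠ 0 := by omega
  have hM0 : Ideal.span {(M : 𝓞 L)} ≠ ⊥ := by
    rw [Ne, Ideal.span_singleton_eq_bot]
    exact_mod_cast hMne
  let Q : Finset (Ideal (𝓞 L)) :=
    (UniqueFactorizationMonoid.normalizedFactors (Ideal.span {(M : 𝓞 L)})).toFinset
  have hmem : ∀ 𝔮, 𝔮 ∈ Q ↔ Prime 𝔮 ∧ 𝔮 ∣ Ideal.span {(M : 𝓞 L)} := by
    intro 𝔮
    rw [Multiset.mem_toFinset]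
    constructor
    · intro h
      exact ⟨UniqueFactorizationMonoid.prime_of_normalized_factor 𝔮 h,
        UniqueFactorizationMonoid.dvd_of_mem_normalizedFactors h⟩
    · rintro ⟨h1, h2⟩
      obtain ⟨𝔮', h3, h4⟩ := UniqueFactorizationMonoid.exists_mem_normalizedFactors_of_dvd hM0
        h1.irreducible h2
      rw [associated_iff_eq] at h4
      rw [h4]
      exact h3
  have hQ : ∀ 𝔭 ∈ Q, Prime 𝔭 := fun 𝔭 h => ((hmem 𝔭).mp h).1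
  have h1 : ∀ 𝔞, res M η 𝔞 = fQ η Q 𝔞 := by
    intro 𝔞
    by_cases h0 : 𝔞 = ⊥
    · have h2 : res M η ⊥ = 0 := map_zero _
      have h3 : η ⊥ = 0 := map_zero _
      rw [h0, h2]
      unfold fQ
      split_ifs
      · rw [h3]
      · rfl
    · rw [res_apply']
      unfold fQ
      have h2 : (Ideal.absNorm 𝔞).Coprime M ↔ ∀ 𝔮 ∈ Q, ¬ 𝔮 ∣ 𝔞 := by
        constructor
        · intro h 𝔮 h3 h4
          obtain ⟨h5, h6⟩ := (hmem 𝔮).mp h3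
          have h7 := Ideal.absNorm_dvd_absNorm_of_le (Ideal.dvd_iff_le.mp h4)
          have h8 := Ideal.absNorm_dvd_absNorm_of_le (Ideal.dvd_iff_le.mp h6)
          rw [norm_nat hL] at h8
          have h9 : (Ideal.absNorm 𝔮).Coprime (M ^ 4) :=
            Nat.Coprime.pow_right 4 (Nat.Coprime.coprime_dvd_left h7 h)
          have h10 := Nat.Coprime.eq_one_of_dvd h9 h8
          have h11 := two_le_norm h5
          omega
        · intro h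
          apply coprime_of h0
          by_contra h3
          obtain ⟨𝔮, h4, h5⟩ := Ideal.exists_le_maximal _ h3
          have h6 : 𝔞 ≤ 𝔮 := le_trans le_sup_left h5
          have h7 : Ideal.span {(M : 𝓞 L)} ≤ 𝔮 := le_trans le_sup_right h5
          have h8 : 𝔮 ≠ ⊥ := by
            rintro rfl
            exact h0 (le_bot_iff.mp h6)
          have h9 : Prime 𝔮 := Ideal.prime_of_isPrime h8 h4.isPrime
          exact h 𝔮 ((hmem 𝔮).mpr ⟨h9, Ideal.dvd_iff_le.mpr h7⟩) (Ideal.dvd_iff_le.mpr h6)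
      by_cases h3 : (Ideal.absNorm 𝔞).Coprime M
      · rw [if_pos h3, if_pos (h2.mp h3)]
      · rw [if_neg h3, if_neg (fun h4 => h3 (h2.mpr h4))]
  have h2 := TV_le hV (hNRM L μ η hη) (hT L hL μ η hη hn) Q hQ X hX
  unfold TV at h2
  simp_rw [h1]
  refine h2.trans ?_
  have hcard : Q.card ≤ 12 := by
    have h3 : Q ⊆ M.primeFactors.attach.biUnion (fun p =>
        (card_Ov (L := L) hL ⟨p.1, Nat.prime_of_mem_primeFactors p.2⟩).1.toFinset) := by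
      intro 𝔮 h𝔮
      obtain ⟨h4, h5⟩ := (hmem 𝔮).mp h𝔮
      have h6 : (M : 𝓞 L) ∈ 𝔮 := by
        rw [← Ideal.span_singleton_le_iff_mem]
        exact Ideal.dvd_iff_le.mp h5
      have h7 : 𝔮.IsPrime := Ideal.isPrime_of_prime h4
      have h8 : ∃ p ∈ M.primeFactors, ((p : ℕ) : 𝓞 L) ∈ 𝔮 := by
        have h9 : ((∏ p ∈ M.primeFactors, p ^ M.factorization p : ℕ) : 𝓞 L) ∈ 𝔮 := by
          have h10 : ∏ p ∈ M.primeFactors, p ^ M.factorization p = M :=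
            Nat.prod_factorization_pow_eq_self hMne
          rw [h10]
          exact h6
        rw [Nat.cast_prod, h7.prod_mem_iff] at h9
        obtain ⟨p, hp, h10⟩ := h9
        rw [Nat.cast_pow] at h10
        exact ⟨p, hp, h7.mem_of_pow_mem _ h10⟩
      obtain ⟨p, hp, h9⟩ := h8
      rw [Finset.mem_biUnion]
      refine ⟨⟨p, hp⟩, Finset.mem_attach _ _, ?_⟩
      rw [Set.Finite.mem_toFinset]
      exact ⟨h7, h9⟩
    refine (Finset.card_le_card h3).trans (Finset.card_biUnion_le.trans ?_)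
    calc ∑ p ∈ M.primeFactors.attach, (card_Ov (L := L) hL ⟨p.1, Nat.prime_of_mem_primeFactors p.2⟩).1.toFinset.card
        ≤ ∑ p ∈ M.primeFactors.attach, 4 := by
          refine Finset.sum_le_sum fun p _ => ?_
          rw [← Set.ncard_eq_toFinset_card _ _]
          exact (card_Ov (L := L) hL ⟨p.1, Nat.prime_of_mem_primeFactors p.2⟩).2
      _ = M.primeFactors.card * 4 := by
          rw [Finset.sum_const, Finset.card_attach, smul_eq_mul]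
      _ ≤ 12 := by omega
  have h3 : (2 : ℝ) ^ Q.card ≤ 2 ^ 12 := pow_le_pow_right₀ (by norm_num) hcard
  have hD : 0 ≤ C * (1 + ∑ w, |μ w|) * |(discr L : ℝ)| ^ 40 := by
    have : 0 ≤ ∑ w, |μ w| := Finset.sum_nonneg fun _ _ => abs_nonneg _
    positivity
  calc C * (1 + ∑ w, |μ w|) * |(discr L : ℝ)| ^ 40 * 2 ^ Q.card * X ^ (3 / 4 : ℝ)
      ≤ C * (1 + ∑ w, |μ w|) * |(discr L : ℝ)| ^ 40 * 2 ^ 12 * X ^ (3 / 4 : ℝ) :=
        mul_le_mul_of_nonneg_right (mul_le_mul_of_nonneg_left h3 hD) (by positivity)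
    _ = _ := by ring

end Pool.Agent.J4H57.HG
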